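import Mathlib
import Pool.Agent.Helper76.InsA

/-!
The special one-relator monoid `⟨b, c, … ∣ bbcc = 1⟩` has a trivial group of units, and every recursively
enumerable set of natural numbers is defined in it by a finite system of equations with constants.
-/

set_option autoImplicit false

namespace Pool.Agent.Results.MP_c0dfe1_al.TrivialUnits

/-- The special one-relator monoid `⟨A ∣ r = 1⟩`. -/
abbrev SpecialMonoid {A : Type} (r : FreeMonoid A) : Type :=
  PresentedMonoid (fun u v : FreeMonoid A => u = r ∧ v = 1)

/-- The word `bbcc` over the alphabet `{0, 1, …, k + 1}`, where `b = 0` and `c = 1`. -/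
def relator (k : ℕ) : FreeMonoid (Fin (k + 2)) := FreeMonoid.ofList [0, 0, 1, 1]

/-- The value in `M = ⟨A ∣ r = 1⟩` of a word over `A` and the variables `x_0, x_1, …` when `x_i` has the
value `σ i`. -/
def value {A : Type} (r : FreeMonoid A) (σ : ℕ → SpecialMonoid r) (w : List (A ⊕ ℕ)) : SpecialMonoid r :=
  (w.map (Sum.elim (fun a => PresentedMonoid.of _ a) σ)).prod

/-- `σ` is a solution of the finite system `E` of equations with constants over `M = ⟨A ∣ r = 1⟩`. -/
def IsSolution {A : Type} (r : FreeMonoid A) (E : List (List (A ⊕ ℕ) × List (A ⊕ ℕ)))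
    (σ : ℕ → SpecialMonoid r) : Prop :=
  ∀ e ∈ E, value r σ e.1 = value r σ e.2

open Pool.Agent.Helper76 in
section

variable (k : ℕ)

private theorem relk : (PresentedMonoid.of (fun u v => u = relator k ∧ v = 1) 0) * PresentedMonoid.of _ 0 *
    PresentedMonoid.of _ 1 * PresentedMonoid.of _ 1 = 1 := by
  have h : (PresentedMonoid.mk (fun u v => u = relator k ∧ v = 1)) (relator k) = 1 := by
    change ((relator k : FreeMonoid (Fin (k + 2))) : (conGen (fun u v => u = relator k ∧ v = 1)).Quotient) =
      ((1 : FreeMonoid (Fin (k + 2))) : (conGen (fun u v => u = relator k ∧ v = 1)).Quotient)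
    rw [Con.eq]
    exact ConGen.Rel.of _ _ ⟨rfl, rfl⟩
  rw [← h]
  rfl

private def letters : Fin 2 → Fin (k + 2) := Fin.castLE (by omega)

private def incl : M →* SpecialMonoid (relator k) :=
  PresentedMonoid.lift (rels := fun u v : FreeMonoid (Fin 2) => u = rr ∧ v = 1)
    (fun a => PresentedMonoid.of _ (letters k a)) (by
      rintro _ _ ⟨rfl, rfl⟩
      rw [map_one, ← relk k]
      rfl)

private def retr : SpecialMonoid (relator k) →* M :=
  PresentedMonoid.lift (fun a : Fin (k + 2) => if a = 0 then lt false else if a = 1 then lt true else 1) (by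
      rintro _ _ ⟨rfl, rfl⟩
      rw [map_one, ← rel0]
      rfl)

private def cnt : SpecialMonoid (relator k) →* Multiplicative ℕ :=
  PresentedMonoid.lift
    (fun a : Fin (k + 2) => (if a = 0 ∨ a = 1 then 1 else Multiplicative.ofAdd 1 : Multiplicative ℕ)) (by
      rintro _ _ ⟨rfl, rfl⟩
      rfl)

private theorem incl_of (a : Fin 2) : incl k (Con.mk' con0 (FreeMonoid.of a)) =
    PresentedMonoid.of _ (letters k a) := rfl

private theorem retr_incl (m : M) : retr k (incl k m) = m := by
  have h : (retr k).comp (incl k) = MonoidHom.id M := by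
    refine PresentedMonoid.ext (rels := fun u v : FreeMonoid (Fin 2) => u = rr ∧ v = 1) ?_
    intro a
    change retr k (PresentedMonoid.of _ (letters k a)) = _
    fin_cases a <;> rfl
  exact congrArg (fun f : M →* M => f m) h

private theorem incl_retr (m : SpecialMonoid (relator k)) (hm : cnt k m = 1) : incl k (retr k m) = m := by
  induction m using Con.induction_on with
  | H w =>
    induction w using FreeMonoid.inductionOn with
    | one => exact (congrArg (incl k) (map_one (retr k))).trans (map_one _)
    | of i =>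
      have h1 : cnt k (PresentedMonoid.of _ i) = 1 := hm
      have h2 : cnt k (PresentedMonoid.of _ i) = if i = 0 ∨ i = 1 then 1 else Multiplicative.ofAdd 1 := rfl
      rw [h2] at h1
      by_cases hi : i = 0 ∨ i = 1
      · rcases hi with rfl | rfl
        · rfl
        · rfl
      · rw [if_neg hi] at h1
        exact absurd h1 (by decide)
    | mul x y hx hy =>
      have hx' : cnt k (PresentedMonoid.mk _ x) = 1 → incl k (retr k (PresentedMonoid.mk _ x)) =
        PresentedMonoid.mk _ x := hx
      have hy' : cnt k (PresentedMonoid.mk _ y) = 1 → incl k (retr k (PresentedMonoid.mk _ y)) =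
        PresentedMonoid.mk _ y := hy
      have h1 : cnt k (PresentedMonoid.mk _ x * PresentedMonoid.mk _ y) = 1 := hm
      rw [map_mul] at h1
      have h3 : Multiplicative.toAdd (cnt k (PresentedMonoid.mk _ x)) +
        Multiplicative.toAdd (cnt k (PresentedMonoid.mk _ y)) = 0 := congrArg Multiplicative.toAdd h1
      have h4 : incl k (retr k (PresentedMonoid.mk _ x * PresentedMonoid.mk _ y)) =
          PresentedMonoid.mk _ x * PresentedMonoid.mk _ y := by
        rw [map_mul, map_mul, hx' (Multiplicative.toAdd.injective (Nat.add_eq_zero_iff.1 h3).1),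
          hy' (Multiplicative.toAdd.injective (Nat.add_eq_zero_iff.1 h3).2)]
      exact h4

private theorem unit_eq (u : (SpecialMonoid (relator k))ˣ) : u = 1 := by
  have h : ∀ x y : SpecialMonoid (relator k), x * y = 1 → y * x = 1 → cnt k x = 1 := by
    intro x y hxy _
    have h1 := congrArg (fun t => Multiplicative.toAdd (cnt k t)) hxy
    simp only [map_mul, map_one, toAdd_mul, toAdd_one] at h1
    exact Multiplicative.toAdd.injective (by simpa using (Nat.add_eq_zero_iff.1 h1).1)
  have h1 : retr k (u : SpecialMonoid (relator k)) = 1 := by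
    refine units_trivial _ (retr k (u⁻¹ : (SpecialMonoid (relator k))ˣ)) ?_ ?_
    · rw [← map_mul, u.mul_inv, map_one]
    · rw [← map_mul, u.inv_mul, map_one]
  have h2 := incl_retr k (u : SpecialMonoid (relator k)) (h _ _ u.mul_inv u.inv_mul)
  rw [h1, map_one] at h2
  exact Units.ext h2.symm

/-- the system over the larger alphabet -/
private def big (E : List (List (Fin 2 ⊕ ℕ) × List (Fin 2 ⊕ ℕ))) :
    List (List (Fin (k + 2) ⊕ ℕ) × List (Fin (k + 2) ⊕ ℕ)) :=
  E.map (fun e => (e.1.map (Sum.map (letters k) id), e.2.map (Sum.map (letters k) id)))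

private theorem value_incl (σ : ℕ → M) (w : List (Fin 2 ⊕ ℕ)) :
    value (relator k) (fun i => incl k (σ i)) (w.map (Sum.map (letters k) id)) = incl k (ev σ w) := by
  unfold value ev
  rw [map_list_prod, List.map_map, List.map_map]
  congr 1
  refine List.map_congr_left fun x _ => ?_
  rcases x with a | i <;> rfl

private theorem value_retr (σ : ℕ → SpecialMonoid (relator k)) (w : List (Fin 2 ⊕ ℕ)) :
    retr k (value (relator k) σ (w.map (Sum.map (letters k) id))) = ev (fun i => retr k (σ i)) w := by
  unfold value ev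
  rw [map_list_prod, List.map_map, List.map_map]
  congr 1
  refine List.map_congr_left fun x _ => ?_
  rcases x with a | i
  · change retr k (incl k (Con.mk' con0 (FreeMonoid.of a))) = _
    rw [retr_incl]
    rfl
  · rfl

private theorem isSolution_big (E : List (List (Fin 2 ⊕ ℕ) × List (Fin 2 ⊕ ℕ))) (n : ℕ) :
    (∃ σ : ℕ → SpecialMonoid (relator k), σ 0 = PresentedMonoid.of _ 0 ^ (2 * n) ∧
      IsSolution (relator k) (big k E) σ) ↔ ∃ σ : ℕ → M, σ 0 = b0 ^ n ∧ Sol E σ := by
  have hb : incl k (b0 ^ n) = PresentedMonoid.of _ 0 ^ (2 * n) := by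
    rw [b0_pow, map_pow]
    rfl
  constructor
  · rintro ⟨σ, h0, hσ⟩
    refine ⟨fun i => retr k (σ i), ?_, ?_⟩
    · change retr k (σ 0) = _
      rw [h0, ← hb, retr_incl]
    · intro e he
      have h1 := hσ _ (List.mem_map.2 ⟨e, he, rfl⟩)
      rw [← value_retr, ← value_retr]
      exact congrArg (retr k) h1
  · rintro ⟨σ, h0, hσ⟩
    refine ⟨fun i => incl k (σ i), ?_, ?_⟩
    · change incl k (σ 0) = _
      rw [h0, hb]
    · intro e he
      obtain ⟨e', he', rfl⟩ := List.mem_map.1 he
      change value (relator k) (fun i => incl k (σ i)) _ = value (relator k) (fun i => incl k (σ i)) _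
      rw [value_incl, value_incl]
      exact congrArg (incl k) (hσ e' he')

private theorem systems (K : ℕ → Prop) (hK : REPred K) :
    ∃ E : List (List (Fin (k + 2) ⊕ ℕ) × List (Fin (k + 2) ⊕ ℕ)),
      ∀ n, K n ↔ ∃ σ : ℕ → SpecialMonoid (relator k),
        σ 0 = PresentedMonoid.of _ 0 ^ (2 * n) ∧ IsSolution (relator k) E σ := by
  obtain ⟨E, hE⟩ := system_of_re hK
  exact ⟨big k E, fun n => (hE n).trans (isSolution_big k E n).symm⟩

private theorem undecidable_big : ¬ ComputablePred
    (fun E : List (List (Fin (k + 2) ⊕ ℕ) × List (Fin (k + 2) ⊕ ℕ)) =>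
      ∃ σ : ℕ → SpecialMonoid (relator k), IsSolution (relator k) E σ) := by
  intro hP
  obtain ⟨K, hK⟩ : ∃ K : ℕ → Prop, REPred K ∧ ¬ ComputablePred K := by
    refine ⟨fun n => ((Denumerable.ofNat Nat.Partrec.Code n).eval 0).Dom, ?_, ?_⟩
    · exact ComputablePred.halting_problem_re 0 |>.comp (Computable.ofNat Nat.Partrec.Code)
    · intro hK
      apply ComputablePred.halting_problem 0
      refine ComputablePred.computable_of_manyOneReducible
        ⟨Encodable.encode, Computable.encode, fun c => ?_⟩ hK
      simp
  obtain ⟨E, hE⟩ := systems k K hK.1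
  apply hK.2
  refine ComputablePred.computable_of_manyOneReducible
    ⟨fun n => (([Sum.inr 0] : List (Fin (k + 2) ⊕ ℕ)),
      ((List.range (2 * n)).map (fun _ => (Sum.inl 0 : Fin (k + 2) ⊕ ℕ)))) :: E, ?_, fun n => ?_⟩ hP
  · apply Primrec.to_comp
    refine Primrec.list_cons.comp (Primrec.pair (Primrec.const _) ?_) (Primrec.const _)
    exact Primrec.list_map (Primrec.list_range.comp (Primrec.nat_mul.comp (Primrec.const 2)
      Primrec.id)) (Primrec.const _).to₂
  · rw [hE]
    refine exists_congr fun σ => ?_
    have h1 : value (relator k) σ [Sum.inr 0] = σ 0 := by simp [value]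
    have h2 : value (relator k) σ ((List.range (2 * n)).map (fun _ => (Sum.inl 0 : Fin (k + 2) ⊕ ℕ))) =
        PresentedMonoid.of _ 0 ^ (2 * n) := by
      unfold value
      rw [List.map_const', List.length_range, List.map_replicate, List.prod_replicate]
      rfl
    constructor
    · rintro ⟨h0, hσ⟩ e he
      rcases List.mem_cons.1 he with rfl | he
      · change value (relator k) σ [Sum.inr 0] = value (relator k) σ _
        rw [h1, h2, h0]
      · exact hσ e he
    · intro hσ
      refine ⟨?_, fun e he => hσ e (List.mem_cons_of_mem _ he)⟩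
      have h3 := hσ _ List.mem_cons_self
      change value (relator k) σ [Sum.inr 0] = value (relator k) σ _ at h3
      rw [h1, h2] at h3
      exact h3

end

/-- For every finite alphabet with at least two letters `b`, `c` the special one-relator monoid
`M = ⟨b, c, … ∣ bbcc = 1⟩` has only the unit `1` and an undecidable Diophantine problem; moreover for every
recursively enumerable set `K` of natural numbers some finite system of equations with constants has, for
every `n`, a solution with `x_0 = b ^ (2 n)` if and only if `n ∈ K`. -/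
theorem result (k : ℕ) :
    (∀ u : (SpecialMonoid (relator k))ˣ, u = 1) ∧
    (∀ K : ℕ → Prop, REPred K → ∃ E : List (List (Fin (k + 2) ⊕ ℕ) × List (Fin (k + 2) ⊕ ℕ)),
      ∀ n, K n ↔ ∃ σ : ℕ → SpecialMonoid (relator k),
        σ 0 = PresentedMonoid.of _ 0 ^ (2 * n) ∧ IsSolution (relator k) E σ) ∧
    ¬ ComputablePred (fun E : List (List (Fin (k + 2) ⊕ ℕ) × List (Fin (k + 2) ⊕ ℕ)) =>
      ∃ σ : ℕ → SpecialMonoid (relator k), IsSolution (relator k) E σ) :=
  ⟨unit_eq k, fun K hK => systems k K hK, undecidable_big k⟩

end Pool.Agent.Results.MP_c0dfe1_al.TrivialUnits
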